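import Pool.Agent.R459.Nbhd
import Pool.Agent.W5h80.Bil.E
import Pool.Agent.Results.MP_61161c_nt.DigitPermutations

/-!
# Sums of two distinct and almost equal odd primes, for all even integers near the values of bilinear forms at the
members of two thin families

Definitions used:
* in `Pool.Agent.H560R3.GB`: `sing m`: the singular series `2 C₂ ∏_{p ∣ m, p > 2} (p - 1) / (p - 2)`, where
  `C₂ = ∏_{p > 2} (1 - 1 / (p - 1) ^ 2)`.
-/

set_option autoImplicit false

namespace Pool.Agent.Results.MP_61161c_nt.BilinearThinFamilies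

open Finset Pool.Agent.H560R3.GB

/-- The number of the `p` such that `p` and `p' = m - p` are odd primes, `p < p'` and `p' - p ≤ H`. -/
def N (m H : ℕ) : ℕ :=
  ((range m).filter (fun p => p.Prime ∧ p ≠ 2 ∧ (m - p).Prime ∧ m - p ≠ 2 ∧ p < m - p ∧ m - p ≤ p + H)).card

/-- For every `H` with `m / log ^ A m ≤ H ≤ m` there are distinct odd primes `p < p'` with `p + p' = m` and
`p' - p ≤ H`, and the number of these pairs is `sing m * H / (2 log ^ 2 m)` up to a relative error of at
most `ε`. -/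
def Holds (ε : ℝ) (A m : ℕ) : Prop :=
  ∀ H : ℕ, H ≤ m → (m : ℝ) / Real.log m ^ A ≤ H →
    (∃ p p' : ℕ, p.Prime ∧ p'.Prime ∧ p ≠ 2 ∧ p' ≠ 2 ∧ p < p' ∧ p + p' = m ∧ p' - p ≤ H) ∧
    |(N m H : ℝ) - sing m * H / (2 * Real.log m ^ 2)| ≤ ε * (sing m * H / (2 * Real.log m ^ 2))

/-- The additive energy of order `h` of a finite family `x i` (`i ∈ ι`): the number of solutions of
`x (a 1) + ... + x (a h) = x (b 1) + ... + x (b h)`. -/
noncomputable def energy (h : ℕ) {ι G : Type} [AddCommMonoid G] (x : ι → G) : ℕ :=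
  Nat.card {q : (Fin h → ι) × (Fin h → ι) // ∑ j, x (q.1 j) = ∑ j, x (q.2 j)}

/-- The family `f i + g j + κ (x i · y j)`. -/
def value {ι lam : Type} {d : ℕ} (κ : ℤ) (f : ι → ℤ) (g : lam → ℤ) (x : ι → Fin d → ℤ) (y : lam → Fin d → ℤ)
    (p : ι × lam) : ℤ :=
  f p.1 + g p.2 + κ * ∑ k, x p.1 k * y p.2 k

/-- The number of the members `v i` of the family for which `Holds` fails for some even integer `m > 0` at a distance
of at most `T` from `v i`. -/
noncomputable def exceptions (ε : ℝ) (A : ℕ) (T : ℝ) {ι : Type} (v : ι → ℤ) : ℕ :=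
  Nat.card {i : ι // ∃ m : ℕ, 0 < m ∧ Even m ∧ |(m : ℝ) - v i| ≤ T ∧ ¬ Holds ε A m}

/-- Let `d ≥ 1`, `h ≥ 1`, `s ≥ 1`, `A`, `B`, `C`, `U`, `W`, `κ ≠ 0` and `ε > 0` be fixed. Let `X` and `Y` be integers
with `X ≤ Y ^ s` and `Y ≤ X ^ s` and with a large product `N = X Y`, let `x i` (`i ∈ ι`) be an arbitrary finite family
of points of `ℤ ^ d` with coordinates of absolute value at most `B X` and `y j` (`j ∈ lam`) an arbitrary finite family
of points of `ℤ ^ d` with coordinates of absolute value at most `B Y`, whose additive energies of order `h` are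
minimal up to a power of `log N`, and let `f` and `g` be arbitrary functions on `ι` and `lam` such that
`f i + g j + κ (x i · y j) ≤ B N` for all `i` and `j`.

Then for all the pairs `(i, j)`, except for at most `#ι #lam / log ^ U N` of them, ALL the even integers `m > 0` at a
distance of at most `log ^ W N` from `f i + g j + κ (x i · y j)` are sums of two distinct odd primes `p < p'`, even
with `p' - p ≤ H` for every `H` with `m / log ^ A m ≤ H ≤ m`, and the number of these representations is as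
predicted, up to a relative error of at most `ε`. -/
theorem result (d h s A B C U W : ℕ) (hd : 1 ≤ d) (hh : 1 ≤ h) (hs : 1 ≤ s) (κ : ℤ) (hκ : κ ≠ 0) (ε : ℝ)
    (hε : 0 < ε) :
    ∃ N₀ : ℕ, ∀ X Y : ℕ, N₀ ≤ X * Y → X ≤ Y ^ s → Y ≤ X ^ s →
      ∀ (ι lam : Type) [Fintype ι] [Fintype lam] (x : ι → Fin d → ℤ) (y : lam → Fin d → ℤ) (f : ι → ℤ) (g : lam → ℤ),
      (∀ i k, |x i k| ≤ B * X) → (∀ j k, |y j k| ≤ B * Y) → (∀ p, value κ f g x y p ≤ B * (X * Y)) →
      (energy h x : ℝ) * X ^ d ≤ Real.log (X * Y) ^ C * (Fintype.card ι : ℝ) ^ (2 * h) →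
      (energy h y : ℝ) * Y ^ d ≤ Real.log (X * Y) ^ C * (Fintype.card lam : ℝ) ^ (2 * h) →
      (exceptions ε A (Real.log (X * Y) ^ W) (value κ f g x y) : ℝ) ≤
        Fintype.card ι * Fintype.card lam / Real.log (X * Y) ^ U := by
  classical
  obtain ⟨m₀, hm₀⟩ := MP_61161c_nt.DigitPermutations.holds_of A ε hε
  obtain ⟨N₀, key⟩ := Pool.Agent.W5h80.Bil.bil_transfer d h s B C hd hh hs κ hκ
    (fun N ι _ v => (exceptions ε A (Real.log N ^ W) v : ℝ) ≤ Fintype.card ι / Real.log N ^ U) (by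
      intro B C
      obtain ⟨N₁, h1⟩ := Pool.Agent.R459.near_even (2 * h ^ 2 * (s + 1)) (A + 1) B C W U m₀
        (by
          have : 1 ≤ h ^ 2 := Nat.one_le_pow _ _ hh
          nlinarith) (min ε (1 / 2) / 2)
        (div_pos (lt_min hε (by norm_num)) (by norm_num)) (Holds ε A) hm₀
      refine ⟨N₁, fun N hN ι _ v hv hE => ?_⟩
      have h2 := h1 N hN ι v hv hE (univ.filter (fun i => ∃ m : ℕ, 0 < m ∧ Even m ∧
        |(m : ℝ) - v i| ≤ Real.log N ^ W ∧ ¬ Holds ε A m)) (by
          intro i hi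
          obtain ⟨m, a1, a2, a3, a4⟩ := (mem_filter.1 hi).2
          exact ⟨m, a1, a2, by push_cast; exact a3, a4⟩)
      unfold exceptions
      rw [Nat.card_eq_fintype_card, Fintype.card_subtype]
      exact h2)
  refine ⟨N₀, ?_⟩
  intro X Y hN hXY hYX ι lam _ _ x y f g hx hy hv hEx hEy
  have h3 := key X Y hN hXY hYX ι lam x y f g hx hy (fun i j => hv (i, j)) hEx hEy
  rw [Fintype.card_prod] at h3
  push_cast at h3
  exact h3

end Pool.Agent.Results.MP_61161c_nt.BilinearThinFamilies
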