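import Mathlib
import Pool.Agent.W5h22.GS.V

set_option autoImplicit false

/-!
# Local-to-global principle for weighted Goldbach representations and the range of small shares

(1) Let `f` be an ARBITRARY weight on the primes, `|f| ≤ 1` (it may depend on `X`). For almost all
`n ∈ (X, 2X]` the weighted number of representations `∑ f(p)` over `n = p + q` is what the residues of
`n - p` modulo the product `W` of the primes up to `w` predict, namely
`(W / (φ(W) log X)) ∑_{p < n, (n - p, W) = 1} f(p)`, up to `ε X / log² X`; here `w ≥ w₀(ε)` is arbitrary and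
does not depend on `f`.

(2), (3) For a set `D` of at most `η X / log X` integers the number of even `n ∈ (X, 2X]` of which `D`
captures a share at least `ε` of the representations as a sum of two distinct odd primes is at most
`C (η / ε) X` (first moment), and in the range `η ≤ ε ≤ c η log (2 + log (1/η))` this is sharp: there is a
set `D` of at most `η X / log X` primes that captures a share `ε` for at least `c (η / ε) X` even `n`.

For `ε ≥ C η log (2 + log (1/η))` the number is at most `C exp(-exp(c ε / η)) X` by `SharesOfSparseSets`.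
So there is a sharp transition at the shares of order `η log log (1/η)`: below the first moment
(Markov's inequality) tells the truth, above the exceptional set is smaller than any power of
`1 / log (1/η)`.

Proof (`Pool.Agent.W5h22.GS`). (1) restriction theorem for the primes and the absence of large Fourier
coefficients of the primes minus their averages along progressions with difference divisible by `W₀` (starting
files), Parseval, and the prime number theorem in arithmetic progressions with the theorem of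
Brun-Titchmarsh at the edges. (3) `D` consists of the primes `p ≤ θ X`, `p ≡ 1` modulo the product `Q` of the
primes up to `v = exp(C ε / η)`, which is at most `1/η` in the range of (3). By (1) almost all `n` with
`(n - 1, Q) = 1` have at least `c (θ / φ(Q)) log v X / log² X` representations with `p ∈ D`; these `n` have density
of order `1 / log v`, and the average number of all representations over them is computed by counting
residues.
-/

namespace Pool.Agent.Results.MP_61161c_nt.LocalToGlobalShares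

open Finset Filter

/-- The representations of `n` as an ordered sum of two distinct odd primes, by the first prime. -/
def reps (n : ℕ) : Finset ℕ :=
  (range n).filter (fun p => p.Prime ∧ (n - p).Prime ∧ p ≠ 2 ∧ n - p ≠ 2 ∧ p ≠ n - p)

/-- The representations captured by `D`: at least one of the two primes is in `D`. -/
def captured (D : Finset ℕ) (n : ℕ) : Finset ℕ := (reps n).filter (fun p => p ∈ D ∨ n - p ∈ D)

/-- The number of the representations of `n` as `p + q` with `p, q` prime, counted with weight `f p`. -/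
def weighted (f : ℕ → ℝ) (n : ℕ) : ℝ := ∑ p ∈ (range n).filter (fun p => p.Prime ∧ (n - p).Prime), f p

/-- What the residues modulo the product of the primes up to `w` predict for `weighted f n`. -/
noncomputable def expected (w X : ℕ) (f : ℕ → ℝ) (n : ℕ) : ℝ :=
  ((primorial w : ℝ) / (Nat.totient (primorial w) : ℝ)) / Real.log X *
    ∑ p ∈ (range n).filter (fun p => p.Prime ∧ Nat.Coprime (n - p) (primorial w)), f p

/-- The number of the `n ∈ (X, 2X]` with the property `P`. -/
noncomputable def cnt (X : ℕ) (P : ℕ → Prop) : ℕ := {n : ℕ | X < n ∧ n ≤ 2 * X ∧ P n}.ncard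

theorem cnt_finite (X : ℕ) (P : ℕ → Prop) : {n : ℕ | X < n ∧ n ≤ 2 * X ∧ P n}.Finite :=
  (Set.finite_Iic (2 * X)).subset fun _ hn => hn.2.1

theorem reps_eq : reps = Pool.Agent.W5h22.GS.reps := rfl

theorem captured_eq : captured = Pool.Agent.W5h22.GS.repsD := rfl

theorem cnt_le (X : ℕ) (P : ℕ → Prop) (B : ℝ)
    (h : ∀ S : Finset ℕ, (∀ n ∈ S, X < n ∧ n ≤ 2 * X ∧ P n) → (#S : ℝ) ≤ B) : (cnt X P : ℝ) ≤ B := by
  unfold cnt
  rw [Set.ncard_eq_toFinset_card _ (cnt_finite X P)]
  apply h
  intro n hn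
  rw [Set.Finite.mem_toFinset] at hn
  exact hn

theorem le_cnt (X : ℕ) (P : ℕ → Prop) (S : Finset ℕ) (hS : ∀ n ∈ S, X < n ∧ n ≤ 2 * X ∧ P n) :
    (#S : ℝ) ≤ cnt X P := by
  have : #S ≤ cnt X P := by
    unfold cnt
    rw [← Set.ncard_coe_finset S]
    exact Set.ncard_le_ncard (fun n hn => hS n hn) (cnt_finite X P)
  exact_mod_cast this

theorem result : ∃ c C : ℝ, 0 < c ∧ 0 < C ∧
    -- (1) the local-to-global principle
    (∀ ε : ℝ, 0 < ε → ∃ w₀ : ℕ, ∀ w : ℕ, w₀ ≤ w → ∃ X₀ : ℕ, ∀ X : ℕ, X₀ ≤ X →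
      ∀ f : ℕ → ℝ, (∀ p, |f p| ≤ 1) →
        (cnt X (fun n => ε * ((X : ℝ) / Real.log X ^ 2) < |weighted f n - expected w X f n|) : ℝ) ≤ ε * X) ∧
    -- (2) the first moment bound
    (∀ η ε : ℝ, 0 < η → 0 < ε → ∃ X₀ : ℕ, ∀ X : ℕ, X₀ ≤ X →
      ∀ D : Finset ℕ, (#D : ℝ) ≤ η * (X / Real.log X) →
        (cnt X (fun n => Even n ∧ ¬ (0 < #(reps n) ∧ (#(captured D n) : ℝ) ≤ ε * #(reps n))) : ℝ) ≤
          C * (η / ε) * X) ∧
    -- (3) it is sharp for the small shares
    (∀ η ε : ℝ, 0 < η → η ≤ 1 → η ≤ ε → ε ≤ c * (η * Real.log (2 + Real.log (1 / η))) →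
      ∃ X₀ : ℕ, ∀ X : ℕ, X₀ ≤ X → ∃ D : Finset ℕ, (∀ p ∈ D, p.Prime) ∧ (#D : ℝ) ≤ η * (X / Real.log X) ∧
        c * (η / ε) * X ≤ (cnt X (fun n => Even n ∧ 0 < #(reps n) ∧ ε * (#(reps n) : ℝ) ≤ #(captured D n)) : ℝ)) := by
  rw [reps_eq, captured_eq]
  obtain ⟨c, hc, h3⟩ := Pool.Agent.W5h22.GS.lower2
  obtain ⟨C, hC, h2⟩ := Pool.Agent.W5h22.GS.upper2
  refine ⟨c, C, hc, hC, ?_, ?_, ?_⟩
  · intro ε hε
    obtain ⟨w₀, h⟩ := Pool.Agent.W5h22.GS.ltg ε hε
    refine ⟨w₀, fun w hw => ?_⟩
    obtain ⟨X₀, hX₀⟩ := eventually_atTop.1 (h w hw)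
    refine ⟨X₀, fun X hX f hf => cnt_le X _ _ fun S hS => ?_⟩
    refine le_trans ?_ (hX₀ X hX f hf)
    have : S ⊆ (Ioc X (2 * X)).filter (fun n : ℕ => ε * ((X : ℝ) / Real.log X ^ 2) <
      |∑ p ∈ Pool.Agent.W5h22.GS.G1 n, f p - ((Pool.Agent.W5h22.GS.PM w : ℕ) / (Pool.Agent.W5h22.GS.PM w).totient : ℝ) / Real.log X *
        ∑ p ∈ Pool.Agent.W5h22.GS.G2 (Pool.Agent.W5h22.GS.PM w) n, f p|) := by
      intro n hn
      obtain ⟨k1, k2, k3⟩ := hS n hn
      rw [mem_filter, mem_Ioc]
      refine ⟨⟨k1, k2⟩, ?_⟩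
      unfold weighted expected at k3
      rw [← Pool.Agent.W5h22.GS.PM_primorial] at k3
      exact k3
    exact_mod_cast card_le_card this
  · intro η ε hη hε
    obtain ⟨X₀, hX₀⟩ := eventually_atTop.1 (h2 η ε hη hε)
    exact ⟨X₀, fun X hX D hD => cnt_le X _ _ (hX₀ X hX D hD)⟩
  · intro η ε hη hη1 hηε hε
    obtain ⟨X₀, hX₀⟩ := eventually_atTop.1 (h3 η ε hη hη1 hηε hε)
    refine ⟨X₀, fun X hX => ?_⟩
    obtain ⟨D, hD1, hD2, S, hS1, hS2⟩ := hX₀ X hX
    exact ⟨D, hD1, hD2, hS2.trans (le_cnt X _ S hS1)⟩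

end Pool.Agent.Results.MP_61161c_nt.LocalToGlobalShares
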