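import Mathlib
import Pool.Agent.W5h22.GS.K

set_option autoImplicit false

/-!
# The share of the Goldbach representations captured by a sparse set of primes

Let `D` be an arbitrary set of at most `η X / log X` integers (a set of primes of relative density `η`,
which may depend on `X`). For how many even `n ∈ (X, 2X]` can `D` capture a share `ε` of the
representations of `n` as a sum of two distinct odd primes, that is, for how many `n` has a proportion
`ε` of the representations a member in `D`? Here: for at most `C exp(-exp(c ε / η)) X`, as long as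
`ε ≥ C η log(2 + log(1/η))`; and this is sharp up to the values of the constants, for all `η` and `ε`.

In particular: if one removes a proportion `η` of the primes, all but `C exp(-exp(c/η)) X` of the even
integers `n ∈ (X, 2X]` remain sums of two distinct odd primes, whatever primes are removed; and for
some set `D` of primes of relative density `η` at least `c exp(-exp(C/η)) X` even integers are not sums
of two primes outside `D` any more, although almost all of them have the expected number of
representations before the removal.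

Proof (`Pool.Agent.W5h22.GS`). Upper bound: by the restriction theorem for the primes (starting files) the
number of the `p ∈ D` with `n - p` prime is for almost all `n` close to its average over the shifts of
`n` by the multiples of a fixed `W`, which the sieve bounds by a local density
`T d (n) = (W / φ(W)²) ∑ d(s) 1_{(n - s, W) = 1}`, where `d` is the density of `D` in the residue classes
modulo `W`. The `N`-th moment of `T d`, with `N` about `exp(c ε / η)`, is estimated by expanding it into
a sum over `N`-tuples of residues and by an exponential moment bound for the coincidences modulo the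
primes larger than `N`; the factor of the primes up to `N` is `(C log N) ^ N` by the theorem of Mertens.
Lower bound: `D` consists of the primes `p ≤ 6 ε X` for which `2 - p` is coprime to all primes up to
`w = exp(C ε / η)`; it contains (essentially) all primes `p ≤ 6 ε X` for which `n - p` is a prime, for every
`n ≡ 2` modulo the product of the primes up to `w`.
-/

namespace Pool.Agent.Results.MP_61161c_nt.SharesOfSparseSets

open Finset

/-- The representations of `n` as an ordered sum of two distinct odd primes, by the first prime. -/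
def reps (n : ℕ) : Finset ℕ :=
  (range n).filter (fun p => p.Prime ∧ (n - p).Prime ∧ p ≠ 2 ∧ n - p ≠ 2 ∧ p ≠ n - p)

/-- The representations captured by `D`: at least one of the two primes is in `D`. -/
def captured (D : Finset ℕ) (n : ℕ) : Finset ℕ := (reps n).filter (fun p => p ∈ D ∨ n - p ∈ D)

/-- `n` is a sum of two distinct odd primes that are not in `D`. -/
def SumOutside (D : Finset ℕ) (n : ℕ) : Prop :=
  ∃ p q : ℕ, p.Prime ∧ q.Prime ∧ p ≠ 2 ∧ q ≠ 2 ∧ p ≠ q ∧ p ∉ D ∧ q ∉ D ∧ n = p + q

/-- The number of the even `n ∈ (X, 2X]` with the property `P`. -/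
noncomputable def num (X : ℕ) (P : ℕ → Prop) : ℕ := {n : ℕ | X < n ∧ n ≤ 2 * X ∧ Even n ∧ P n}.ncard

theorem num_finite (X : ℕ) (P : ℕ → Prop) : {n : ℕ | X < n ∧ n ≤ 2 * X ∧ Even n ∧ P n}.Finite :=
  (Set.finite_Iic (2 * X)).subset fun _ hn => hn.2.1

theorem reps_eq : reps = Pool.Agent.W5h22.GS.reps := rfl

theorem captured_eq : captured = Pool.Agent.W5h22.GS.repsD := rfl

theorem sum_eq : SumOutside = Pool.Agent.W5h22.GS.SumOutside := rfl

theorem num_le (X : ℕ) (P : ℕ → Prop) (B : ℝ)
    (h : ∀ S : Finset ℕ, (∀ n ∈ S, X < n ∧ n ≤ 2 * X ∧ Even n ∧ P n) → (#S : ℝ) ≤ B) : (num X P : ℝ) ≤ B := by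
  unfold num
  rw [Set.ncard_eq_toFinset_card _ (num_finite X P)]
  apply h
  intro n hn
  rw [Set.Finite.mem_toFinset] at hn
  exact hn

theorem le_num (X : ℕ) (P : ℕ → Prop) (S : Finset ℕ) (hS : ∀ n ∈ S, X < n ∧ n ≤ 2 * X ∧ Even n ∧ P n) :
    (#S : ℝ) ≤ num X P := by
  have : #S ≤ num X P := by
    unfold num
    rw [← Set.ncard_coe_finset S]
    exact Set.ncard_le_ncard (fun n hn => hS n hn) (num_finite X P)
  exact_mod_cast this

theorem result : ∃ c C : ℝ, 0 < c ∧ 0 < C ∧
    -- shares: upper bound for all sets, and a set for which it is attained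
    (∀ η ε : ℝ, 0 < η → η ≤ 1 → 0 < ε → ε ≤ 1 → ∃ X₀ : ℕ, ∀ X : ℕ, X₀ ≤ X →
      (C * (η * Real.log (2 + Real.log (1 / η))) ≤ ε →
        ∀ D : Finset ℕ, (#D : ℝ) ≤ η * (X / Real.log X) →
          (num X (fun n => ¬ (0 < #(reps n) ∧ (#(captured D n) : ℝ) ≤ ε * #(reps n))) : ℝ) ≤
            C * Real.exp (-Real.exp (c * (ε / η))) * X) ∧
      ∃ D : Finset ℕ, (∀ p ∈ D, p.Prime) ∧ (#D : ℝ) ≤ η * (X / Real.log X) ∧
        c * Real.exp (-Real.exp (C * (ε / η))) * X ≤
          (num X (fun n => 0 < #(reps n) ∧ ε * (#(reps n) : ℝ) ≤ #(captured D n)) : ℝ)) ∧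
    -- existence of a representation after the removal of `D`
    (∀ η : ℝ, 0 < η → η ≤ 1 → ∃ X₀ : ℕ, ∀ X : ℕ, X₀ ≤ X →
      (∀ D : Finset ℕ, (#D : ℝ) ≤ η * (X / Real.log X) →
        (num X (fun n => ¬ SumOutside D n) : ℝ) ≤ C * Real.exp (-Real.exp (c / η)) * X) ∧
      ∃ D : Finset ℕ, (∀ p ∈ D, p.Prime) ∧ (#D : ℝ) ≤ η * (X / Real.log X) ∧
        c * Real.exp (-Real.exp (C / η)) * X ≤
          (num X (fun n => 0 < #(reps n) ∧ ¬ SumOutside D n) : ℝ)) := by
  rw [reps_eq, captured_eq, sum_eq]
  obtain ⟨c, C, hc, hC, h1, h2⟩ := Pool.Agent.W5h22.GS.final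
  refine ⟨c, C, hc, hC, ?_, ?_⟩
  · intro η ε hη hη1 hε hε1
    obtain ⟨X₀, h3⟩ := h1 η ε hη hη1 hε hε1
    refine ⟨X₀, fun X hX => ⟨fun hcond D hD => ?_, ?_⟩⟩
    · exact num_le X _ _ ((h3 X hX).1 hcond D hD)
    · obtain ⟨D, hD1, hD2, S, hS1, hS2⟩ := (h3 X hX).2
      exact ⟨D, hD1, hD2, hS2.trans (le_num X _ S hS1)⟩
  · intro η hη hη1
    obtain ⟨X₀, h3⟩ := h2 η hη hη1
    refine ⟨X₀, fun X hX => ⟨fun D hD => ?_, ?_⟩⟩
    · exact num_le X _ _ ((h3 X hX).1 D hD)
    · obtain ⟨D, hD1, hD2, S, hS1, hS2⟩ := (h3 X hX).2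
      exact ⟨D, hD1, hD2, hS2.trans (le_num X _ S hS1)⟩

end Pool.Agent.Results.MP_61161c_nt.SharesOfSparseSets
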