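import Pool.Agent.R459.Nbhd
import Pool.Agent.W5h23.SF.Level
import Pool.Agent.Results.MP_61161c_nt.DigitPermutations

/-!
# Sums of two distinct and almost equal odd primes, for all even integers near almost all values of smooth functions

The theorem on thin families of small additive energy (`Pool.Agent.R459`) is from the starting files; the energy of the
integer parts of smooth sequences (van der Corput's method) is `Pool.Agent.W5h23.SF`.

Definitions used: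
* in `Pool.Agent.H560R3.GB`: `sing m`: the singular series `2 C₂ ∏_{p ∣ m, p > 2} (p - 1) / (p - 2)`, where
  `C₂ = ∏_{p > 2} (1 - 1 / (p - 1) ^ 2)`.
-/

set_option autoImplicit false

namespace Pool.Agent.Results.MP_61161c_nt.SmoothFamilies

open Finset Pool.Agent.H560R3.GB

/-- The number of the `p` such that `p` and `p' = m - p` are odd primes, `p < p'` and `p' - p ≤ H`. -/
def N (m H : ℕ) : ℕ :=
  ((range m).filter (fun p => p.Prime ∧ p ≠ 2 ∧ (m - p).Prime ∧ m - p ≠ 2 ∧ p < m - p ∧ m - p ≤ p + H)).card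

/-- For every `H` with `m / log ^ A m ≤ H ≤ m` there are distinct odd primes `p < p'` with `p + p' = m` and
`p' - p ≤ H`, and the number of these pairs is `sing m * H / (2 log ^ 2 m)` up to a relative error of at
most `ε`. -/
def Holds (ε : ℝ) (A m : ℕ) : Prop :=
  ∀ H : ℕ, H ≤ m → (m : ℝ) / Real.log m ^ A ≤ H →
    (∃ p p' : ℕ, p.Prime ∧ p'.Prime ∧ p ≠ 2 ∧ p' ≠ 2 ∧ p < p' ∧ p + p' = m ∧ p' - p ≤ H) ∧
    |(N m H : ℝ) - sing m * H / (2 * Real.log m ^ 2)| ≤ ε * (sing m * H / (2 * Real.log m ^ 2))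

/-- `f` varies on `[M, 2 M]` like a function of size `R` of the variable `t / M`: the functions `D j` are the successive
derivatives of `f = D 0`, and `c R ≤ |f⁽ʲ⁾(t)| M ^ j ≤ C R` for `1 ≤ j ≤ K`. -/
def Smooth (K : ℕ) (c C M R : ℝ) (f : ℝ → ℝ) : Prop :=
  ∃ D : ℕ → ℝ → ℝ, D 0 = f ∧ (∀ j ≤ K, ∀ t ∈ Set.Icc M (2 * M), HasDerivAt (D j) (D (j + 1) t) t) ∧
    ∀ j, 1 ≤ j → j ≤ K → ∀ t ∈ Set.Icc M (2 * M), c * R ≤ |D j t| * M ^ j ∧ |D j t| * M ^ j ≤ C * R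

open Classical in
/-- The number of the `n ∈ S` such that `Holds` fails for some even integer `m > 0` at a distance of at most `T` from the
real number `f(n)`. -/
noncomputable def exceptions (ε : ℝ) (A : ℕ) (T : ℝ) (S : Finset ℕ) (f : ℝ → ℝ) : ℕ :=
  (S.filter (fun n : ℕ => ∃ m : ℕ, 0 < m ∧ Even m ∧ |(m : ℝ) - f n| ≤ T ∧ ¬ Holds ε A m)).card

theorem smooth_case (Q : ℕ) (c0 C0 : ℝ) (hQ : 1 ≤ Q) (hc0 : 0 < c0) (hC0 : 1 ≤ C0) (A B D U W : ℕ) (ε : ℝ) (hε : 0 < ε) :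
    ∃ X₀ : ℕ, ∀ X : ℕ, X₀ ≤ X → ∀ (M : ℕ) (R : ℝ) (f : ℝ → ℝ),
      X ≤ Real.log X ^ D * R → R ≤ (M : ℝ) ^ Q → Smooth (Q + 2) c0 C0 M R f →
      ∀ S : Finset ℕ, S ⊆ Ico M (2 * M) → (M : ℝ) ≤ Real.log X ^ D * S.card → (∀ n ∈ S, f n ≤ B * X) →
      (exceptions ε A (Real.log X ^ W) S f : ℝ) ≤ S.card / Real.log X ^ U := by
  classical
  obtain ⟨m₀, hm₀⟩ := MP_61161c_nt.DigitPermutations.holds_of A ε hε
  obtain ⟨p, E1, N1, hp, h1⟩ := Pool.Agent.W5h23.SF.energy_log Q hQ c0 C0 hc0 hC0 D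
  obtain ⟨N2, h2⟩ := Pool.Agent.R459.near_even p (A + 1) B E1 (W + 1) U m₀ hp (min ε (1 / 2) / 2)
    (div_pos (lt_min hε (by norm_num)) (by norm_num)) (Holds ε A) hm₀
  obtain ⟨N3, h3⟩ : ∃ N3 : ℕ, ∀ N : ℕ, N3 ≤ N → Real.log N ^ D ≤ N ∧ 2 ≤ Real.log N := by
    have e1 := (isLittleO_log_rpow_rpow_atTop (s := 1) (D : ℝ) one_pos).bound one_pos
    have e2 := Real.tendsto_log_atTop.eventually_ge_atTop 2
    obtain ⟨N3, e3⟩ := Filter.eventually_atTop.1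
      (tendsto_natCast_atTop_atTop.eventually (e1.and (e2.and (Filter.eventually_ge_atTop 1))))
    refine ⟨N3, fun N hN => ?_⟩
    obtain ⟨k1, k2, k3⟩ := e3 N hN
    rw [one_mul, Real.rpow_one, Real.rpow_natCast, Real.norm_of_nonneg (by positivity), Real.norm_of_nonneg (by linarith)] at k1
    exact ⟨k1, k2⟩
  refine ⟨N1 + N2 + N3 + 1, fun X hX M R f hNR hRQ hf S hS hcard hb => ?_⟩
  obtain ⟨k1, k2⟩ := h3 X (by omega)
  have hX0 : (0 : ℝ) < X := by exact_mod_cast (by omega : 0 < X)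
  have hR : 1 ≤ R := by
    by_contra hlt
    push Not at hlt
    have hl : 0 < Real.log X ^ D := by positivity
    have : Real.log X ^ D * R < Real.log X ^ D * 1 := mul_lt_mul_of_pos_left hlt hl
    linarith
  have hM : 1 ≤ M := by
    rcases Nat.eq_zero_or_pos M with h | h
    · subst h
      rw [Nat.cast_zero, zero_pow (by omega)] at hRQ
      linarith
    · exact h
  have he := h1 M X R f (by omega) hM hR hRQ hNR hf S hS hcard 0
  have hcS : (Fintype.card {m // m ∈ S} : ℝ) = S.card := by simp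
  have key := h2 X (by omega) {m // m ∈ S} (fun m : {m // m ∈ S} => 0 + ⌊f ((m : ℕ) : ℝ)⌋) (fun m => by
      rw [zero_add]
      have h4 : (⌊f ((m : ℕ) : ℝ)⌋ : ℝ) ≤ f ((m : ℕ) : ℝ) := Int.floor_le _
      have h5 := hb m m.2
      exact_mod_cast h4.trans h5) he
    (univ.filter (fun m : {m // m ∈ S} => ∃ k : ℕ, 0 < k ∧ Even k ∧ |(k : ℝ) - f ((m : ℕ) : ℝ)| ≤ Real.log X ^ W ∧ ¬ Holds ε A k)) (by
      intro i hi
      obtain ⟨k, a1, a2, a3, a4⟩ := (mem_filter.1 hi).2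
      refine ⟨k, a1, a2, ?_, a4⟩
      rw [zero_add]
      have h4 : (⌊f ((i : ℕ) : ℝ)⌋ : ℝ) ≤ f ((i : ℕ) : ℝ) := Int.floor_le _
      have h5 : f ((i : ℕ) : ℝ) < (⌊f ((i : ℕ) : ℝ)⌋ : ℝ) + 1 := Int.lt_floor_add_one _
      have h6 : |(((k : ℤ) - ⌊f ((i : ℕ) : ℝ)⌋ : ℤ) : ℝ)| ≤ |(k : ℝ) - f ((i : ℕ) : ℝ)| + 1 := by
        push_cast
        have e : (k : ℝ) - (⌊f ((i : ℕ) : ℝ)⌋ : ℝ) = ((k : ℝ) - f ((i : ℕ) : ℝ)) + (f ((i : ℕ) : ℝ) - (⌊f ((i : ℕ) : ℝ)⌋ : ℝ)) := by ring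
        rw [e]
        refine (abs_add_le _ _).trans ?_
        have : |f ((i : ℕ) : ℝ) - (⌊f ((i : ℕ) : ℝ)⌋ : ℝ)| ≤ 1 := by
          rw [abs_le]
          constructor <;> linarith
        linarith
      have h7 : (1 : ℝ) ≤ Real.log X ^ W := one_le_pow₀ (by linarith)
      have h8 : Real.log X ^ W + 1 ≤ Real.log X ^ (W + 1) := by
        rw [pow_succ]
        nlinarith
      linarith)
  rw [hcS] at key
  refine le_trans ?_ key
  unfold exceptions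
  have h : (S.filter (fun n : ℕ => ∃ m : ℕ, 0 < m ∧ Even m ∧ |(m : ℝ) - f n| ≤ Real.log X ^ W ∧ ¬ Holds ε A m)) ⊆
      (univ.filter (fun m : {m // m ∈ S} => ∃ k : ℕ, 0 < k ∧ Even k ∧ |(k : ℝ) - f ((m : ℕ) : ℝ)| ≤ Real.log X ^ W ∧
        ¬ Holds ε A k)).image (fun m : {m // m ∈ S} => (m : ℕ)) := by
    intro m hm
    rw [mem_filter] at hm
    rw [mem_image]
    exact ⟨⟨m, hm.1⟩, mem_filter.2 ⟨mem_univ _, hm.2⟩, rfl⟩
  exact_mod_cast (card_le_card h).trans card_image_le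

/-- **Sums of two distinct almost equal primes near almost all values of smooth functions.**

(1) Let `Q ≥ 1`, `c0 > 0`, `C0 ≥ 1`, `A`, `B`, `D`, `U`, `W` and `ε > 0` be given. For every large `X`, every function `f`
with `c0 R ≤ |f⁽ʲ⁾(t)| M ^ j ≤ C0 R` for `1 ≤ j ≤ Q + 2` and `M ≤ t ≤ 2 M`, where `X / log ^ D X ≤ R ≤ M ^ Q`, and EVERY
set `S ⊆ [M, 2 M)` with at least `M / log ^ D X` elements such that `f(n) ≤ B X` for `n ∈ S`, for all but at most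
`#S / log ^ U X` of the `n ∈ S`, ALL the even integers `m > 0` at a distance of at most `log ^ W X` from `f(n)` are sums of
two distinct odd primes `p < p'`, even with `p' - p ≤ H` for every `H` with `m / log ^ A m ≤ H ≤ m`, and the number of these
representations is as predicted, up to a relative error of at most `ε`. (`M` can be as small as `X ^ (1 / Q)`, and `Q` is
arbitrary.)

(2) In particular for `f(n) = β + α n ^ s`, where `s` is any real number except `0`, `1`, `2`, …, and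
`X / log ^ D X ≤ |α| M ^ s ≤ M ^ Q`,

(3) and for `f(n) = β + α log n`, `X / log ^ D X ≤ |α| ≤ M ^ Q`. -/
theorem result :
    (∀ (Q : ℕ) (c0 C0 : ℝ), 1 ≤ Q → 0 < c0 → 1 ≤ C0 → ∀ (A B D U W : ℕ) (ε : ℝ), 0 < ε → ∃ X₀ : ℕ, ∀ X : ℕ, X₀ ≤ X →
      ∀ (M : ℕ) (R : ℝ) (f : ℝ → ℝ), X ≤ Real.log X ^ D * R → R ≤ (M : ℝ) ^ Q → Smooth (Q + 2) c0 C0 M R f →
      ∀ S : Finset ℕ, S ⊆ Ico M (2 * M) → (M : ℝ) ≤ Real.log X ^ D * S.card → (∀ n ∈ S, f n ≤ B * X) →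
      (exceptions ε A (Real.log X ^ W) S f : ℝ) ≤ S.card / Real.log X ^ U) ∧
    (∀ s : ℝ, (∀ k : ℕ, s ≠ k) → ∀ (Q A B D U W : ℕ) (ε : ℝ), 0 < ε → ∃ X₀ : ℕ, ∀ X : ℕ, X₀ ≤ X →
      ∀ (M : ℕ) (α β : ℝ), X ≤ Real.log X ^ D * (|α| * (M : ℝ) ^ s) → |α| * (M : ℝ) ^ s ≤ (M : ℝ) ^ Q →
      ∀ S : Finset ℕ, S ⊆ Ico M (2 * M) → (M : ℝ) ≤ Real.log X ^ D * S.card → (∀ n ∈ S, β + α * (n : ℝ) ^ s ≤ B * X) →
      (exceptions ε A (Real.log X ^ W) S (fun t => β + α * t ^ s) : ℝ) ≤ S.card / Real.log X ^ U) ∧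
    (∀ (Q A B D U W : ℕ) (ε : ℝ), 0 < ε → ∃ X₀ : ℕ, ∀ X : ℕ, X₀ ≤ X →
      ∀ (M : ℕ) (α β : ℝ), X ≤ Real.log X ^ D * |α| → |α| ≤ (M : ℝ) ^ Q →
      ∀ S : Finset ℕ, S ⊆ Ico M (2 * M) → (M : ℝ) ≤ Real.log X ^ D * S.card → (∀ n ∈ S, β + α * Real.log n ≤ B * X) →
      (exceptions ε A (Real.log X ^ W) S (fun t => β + α * Real.log t) : ℝ) ≤ S.card / Real.log X ^ U) := by
  refine ⟨fun Q c0 C0 hQ hc0 hC0 A B D U W ε hε => smooth_case Q c0 C0 hQ hc0 hC0 A B D U W ε hε, ?_, ?_⟩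
  · intro s hs Q A B D U W ε hε
    obtain ⟨c0, C0, hc0, hC0, hsm⟩ := Pool.Agent.W5h23.SF.smooth_rpow s hs (Q + 1 + 2)
    obtain ⟨X₀, h⟩ := smooth_case (Q + 1) c0 C0 (by omega) hc0 hC0 A B D U W ε hε
    refine ⟨X₀ + 3, fun X hX M α β hA hAQ S hS hcard hb => ?_⟩
    have hX1 : (1 : ℝ) < X := by exact_mod_cast (by omega : 1 < X)
    have hl : 0 < Real.log X := Real.log_pos hX1
    have hα : α ≠ 0 := by
      rintro rfl
      rw [abs_zero, zero_mul, mul_zero] at hA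
      linarith
    have hM : 1 ≤ M := by
      rcases Nat.eq_zero_or_pos M with h0 | h0
      · subst h0
        exfalso
        have hs0 : s ≠ 0 := by simpa using hs 0
        rw [Nat.cast_zero, Real.zero_rpow hs0, mul_zero, mul_zero] at hA
        linarith
      · exact h0
    have hM1 : (1 : ℝ) ≤ M := by exact_mod_cast hM
    have hA2 : |α| * (M : ℝ) ^ s ≤ (M : ℝ) ^ (Q + 1) := hAQ.trans (pow_le_pow_right₀ hM1 (by omega))
    exact h X (by omega) M (|α| * (M : ℝ) ^ s) (fun t => β + α * t ^ s) hA hA2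
      (Pool.Agent.W5h23.SF.Smooth.add_const (hsm M α (by linarith) hα) β) S hS hcard hb
  · intro Q A B D U W ε hε
    obtain ⟨c0, C0, hc0, hC0, hsm⟩ := Pool.Agent.W5h23.SF.smooth_log (Q + 1 + 2)
    obtain ⟨X₀, h⟩ := smooth_case (Q + 1) c0 C0 (by omega) hc0 hC0 A B D U W ε hε
    refine ⟨X₀ + 3, fun X hX M α β hA hAQ S hS hcard hb => ?_⟩
    have hX1 : (1 : ℝ) < X := by exact_mod_cast (by omega : 1 < X)
    have hl : 0 < Real.log X := Real.log_pos hX1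
    have hα : α ≠ 0 := by
      rintro rfl
      rw [abs_zero, mul_zero] at hA
      linarith
    rcases Nat.eq_zero_or_pos M with h0 | h0
    · subst h0
      have hS' : S = ∅ := by
        rw [← subset_empty]
        refine hS.trans ?_
        simp
      subst hS'
      unfold exceptions
      simp
    have hM1 : (1 : ℝ) ≤ M := by exact_mod_cast h0
    have hA2 : |α| ≤ (M : ℝ) ^ (Q + 1) := hAQ.trans (pow_le_pow_right₀ hM1 (by omega))
    exact h X (by omega) M |α| (fun t => β + α * Real.log t) hA hA2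
      (Pool.Agent.W5h23.SF.Smooth.add_const (hsm M α (by linarith) hα) β) S hS hcard hb

end Pool.Agent.Results.MP_61161c_nt.SmoothFamilies
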